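import Pool.Agent.Helper91.FS.Goals

/-!
# Project FS (MP_0130f7_co), packet LOWT: excess weight of the low levels
-/

set_option autoImplicit false

namespace Pool.Agent.Helper47.FS

open Finset
open Pool.Agent.Helper47.SR (Grp mv lev wt Ew W IsInv up dn StarAt HalfStarAt)
open Pool.Agent.Helper49.NF
open Pool.Agent.Helper91.FS

theorem Ew_lev_le (hSTB : Goal_STBB) {t n L f : ℕ} {G : Grp n} (hE : Eg t n L f G) (k : ℕ)
    (hk : t ≤ k) : Ew G (lev n k) ≤ L * k ^ t * n ^ k := by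
  obtain ⟨-, -, b3⟩ := hSTB t n L f G hE
  have h1 : Ew G (lev n k) ≤ ∑ A ∈ lev n k, L * k ^ t := by
    unfold Ew
    refine sum_le_sum fun A hA => ?_
    have hc : #A = k := (mem_powersetCard.1 hA).2
    have h2 := b3 A (by omega)
    rw [hc] at h2
    omega
  refine h1.trans ?_
  rw [sum_const, smul_eq_mul, mul_comm]
  refine Nat.mul_le_mul_left _ ?_
  rw [card_powersetCard, card_univ, Fintype.card_fin]
  exact Nat.choose_le_pow n k

theorem lowA (c L f n j : ℕ) (hj : 1 ≤ j) (hc : (2 * c) ^ 10 ≤ n) (hn : 1 ≤ n) (hL : L ^ 10 ≤ n)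
    (hf : f ^ 5 ≤ n ^ 3) : (c * (L * ((f + 1) * n ^ (j - 1)))) ^ 10 ≤ n ^ (10 * j - 1) := by
  have h5 : (f + 1) ^ 5 ≤ 32 * n ^ 3 := by
    rcases Nat.eq_zero_or_pos f with h | h
    · subst h
      have : 1 ≤ n ^ 3 := Nat.one_le_pow _ _ hn
      simp only [zero_add, one_pow]
      omega
    · calc (f + 1) ^ 5 ≤ (2 * f) ^ 5 := Nat.pow_le_pow_left (by omega) 5
        _ = 32 * f ^ 5 := by ring
        _ ≤ 32 * n ^ 3 := Nat.mul_le_mul_left _ hf
  calc (c * (L * ((f + 1) * n ^ (j - 1)))) ^ 10 =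
        c ^ 10 * (L ^ 10 * (((f + 1) ^ 5) ^ 2 * (n ^ (j - 1)) ^ 10)) := by ring
    _ ≤ c ^ 10 * (n * ((32 * n ^ 3) ^ 2 * (n ^ (j - 1)) ^ 10)) := by
        apply Nat.mul_le_mul_left
        apply Nat.mul_le_mul hL
        apply Nat.mul_le_mul_right
        exact Nat.pow_le_pow_left h5 2
    _ = (2 * c) ^ 10 * (n ^ 7 * (n ^ (j - 1)) ^ 10) := by ring
    _ ≤ n * (n ^ 7 * (n ^ (j - 1)) ^ 10) := Nat.mul_le_mul_right _ hc
    _ = n ^ (8 + (j - 1) * 10) := by rw [← pow_mul]; ring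
    _ ≤ n ^ (10 * j - 1) := Nat.pow_le_pow_right hn (by omega)

theorem L10 {t n L : ℕ} (ht : 1 ≤ t) (hL1 : 1 ≤ L) (hL : L ^ (1000 * t) ≤ n) : L ^ 10 ≤ n :=
  le_trans (Nat.pow_le_pow_right hL1 (by omega)) hL

theorem goal_LOWT (hSTB : Goal_STBB) (hEJR : Goal_EJR) : Goal_LOWT := by
  constructor
  · intro t j ht ht3 htj
    obtain ⟨c, hc⟩ : ∃ c : ℕ, c = j ^ t * (j + 1) := ⟨_, rfl⟩
    refine ⟨(2 * c) ^ 10 + 1, fun n hn L f G hE hL hf => ?_⟩
    have hn1 : 1 ≤ n := by omega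
    obtain ⟨-, b2, -⟩ := hSTB t n L f G hE
    obtain ⟨e1, e2⟩ := hEJR t n L f G hE j (by omega) (by omega)
    refine le_trans (Nat.pow_le_pow_left ?_ 10) (lowA c L f n j (by omega) (by omega) hn1
      (L10 ht hE.L1 hL) hf)
    refine e1.trans ?_
    have hjt : 1 ≤ j ^ t := Nat.one_le_pow _ _ (by omega)
    have a1 : f * Ew G (lev n (j - 1)) ≤ f * (L * j ^ t * n ^ (j - 1)) := by
      apply Nat.mul_le_mul_left
      refine (Ew_lev_le hSTB hE (j - 1) (by omega)).trans ?_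
      apply Nat.mul_le_mul_right
      apply Nat.mul_le_mul_left
      exact Nat.pow_le_pow_left (by omega) t
    have a2 : n * ∑ k ∈ Ico t (j - 1), Ew G (lev n k) ≤ j * (L * j ^ t * n ^ (j - 1)) := by
      have h1 : ∑ k ∈ Ico t (j - 1), Ew G (lev n k) ≤ ∑ k ∈ Ico t (j - 1), L * j ^ t * n ^ (j - 2) := by
        refine sum_le_sum fun k hk => ?_
        rw [mem_Ico] at hk
        refine (Ew_lev_le hSTB hE k hk.1).trans ?_
        apply Nat.mul_le_mul
        · apply Nat.mul_le_mul_left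
          exact Nat.pow_le_pow_left (by omega) t
        · exact Nat.pow_le_pow_right hn1 (by omega)
      rw [sum_const, smul_eq_mul, Nat.card_Ico] at h1
      have h2 : (j - 1 - t) * (L * j ^ t * n ^ (j - 2)) ≤ j * (L * j ^ t * n ^ (j - 2)) :=
        Nat.mul_le_mul_right _ (by omega)
      have h3 : n * n ^ (j - 2) = n ^ (j - 1) := by
        rw [← pow_succ']
        congr 1
        omega
      calc n * ∑ k ∈ Ico t (j - 1), Ew G (lev n k) ≤ n * (j * (L * j ^ t * n ^ (j - 2))) :=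
            Nat.mul_le_mul_left _ (h1.trans h2)
        _ = j * (L * j ^ t * (n * n ^ (j - 2))) := by ring
        _ = j * (L * j ^ t * n ^ (j - 1)) := by rw [h3]
    have a3 : cyc G j ≤ L * j ^ t * n ^ (j - 1) := by
      refine e2.trans ((Nat.mul_le_mul_left _ b2).trans ?_)
      calc n * (L * n ^ t) = L * 1 * n ^ (t + 1) := by ring
        _ ≤ L * j ^ t * n ^ (j - 1) :=
          Nat.mul_le_mul (Nat.mul_le_mul_left _ hjt) (Nat.pow_le_pow_right hn1 (by omega))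
    calc f * Ew G (lev n (j - 1)) + n * ∑ k ∈ Ico t (j - 1), Ew G (lev n k) + cyc G j ≤
          f * (L * j ^ t * n ^ (j - 1)) + j * (L * j ^ t * n ^ (j - 1)) + L * j ^ t * n ^ (j - 1) :=
          Nat.add_le_add (Nat.add_le_add a1 a2) a3
      _ = L * j ^ t * n ^ (j - 1) * (f + (j + 1)) := by ring
      _ ≤ L * j ^ t * n ^ (j - 1) * ((f + 1) * (j + 1)) := by
          apply Nat.mul_le_mul_left
          nlinarith [Nat.zero_le (f * j)]
      _ = c * (L * ((f + 1) * n ^ (j - 1))) := by rw [hc]; ring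
  · refine ⟨8 ^ 10, fun n hn L f G hE hL hf hcyc => ?_⟩
    have hn1 : 1 ≤ n := le_trans (by norm_num) hn
    obtain ⟨e1, -⟩ := hEJR 2 n L f G hE 3 (by norm_num) (by norm_num)
    have hL10 : L ^ 10 ≤ n := L10 (t := 2) (by norm_num) hE.L1 (by simpa using hL)
    have h0 : ∑ k ∈ Ico 2 (3 - 1), Ew G (lev n k) = 0 := by simp
    rw [h0, mul_zero, add_zero] at e1
    have h1 : Ew G (lev n (3 - 1)) ≤ L * 2 ^ 2 * n ^ 2 := Ew_lev_le hSTB hE 2 (le_refl 2)
    have h2 : Ew G (lev n 3) ≤ f * (L * 2 ^ 2 * n ^ 2) + cyc G 3 :=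
      e1.trans (Nat.add_le_add_right (Nat.mul_le_mul_left _ h1) _)
    obtain ⟨x, hx⟩ : ∃ x, x = f * (L * 2 ^ 2 * n ^ 2) := ⟨_, rfl⟩
    obtain ⟨y, hy⟩ : ∃ y, y = cyc G 3 := ⟨_, rfl⟩
    rw [← hx, ← hy] at h2
    rw [← hy] at hcyc
    have hx10 : x ^ 10 ≤ 4 ^ 10 * n ^ 28 := by
      calc x ^ 10 = 4 ^ 10 * ((f ^ 5) ^ 2 * L ^ 10 * n ^ 20) := by rw [hx]; ring
        _ ≤ 4 ^ 10 * ((n ^ 3) ^ 2 * n * n ^ 20) := by
            apply Nat.mul_le_mul_left
            apply Nat.mul_le_mul_right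
            exact Nat.mul_le_mul (Nat.pow_le_pow_left hf 2) hL10
        _ = 4 ^ 10 * n ^ 27 := by ring
        _ ≤ 4 ^ 10 * n ^ 28 :=
            Nat.mul_le_mul_left _ (Nat.pow_le_pow_right hn1 (by norm_num))
    have hy10 : y ^ 10 ≤ 4 ^ 10 * n ^ 28 := by
      calc y ^ 10 = (y ^ 5) ^ 2 := by ring
        _ ≤ (n ^ 14) ^ 2 := Nat.pow_le_pow_left hcyc 2
        _ = 1 * n ^ 28 := by ring
        _ ≤ 4 ^ 10 * n ^ 28 := Nat.mul_le_mul_right _ (by norm_num)
    have hm : (max x y) ^ 10 ≤ 4 ^ 10 * n ^ 28 := by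
      rcases max_choice x y with h | h
      · rw [h]; exact hx10
      · rw [h]; exact hy10
    have h3 : Ew G (lev n 3) ≤ 2 * max x y := by
      have := le_max_left x y
      have := le_max_right x y
      omega
    calc Ew G (lev n 3) ^ 10 ≤ (2 * max x y) ^ 10 := Nat.pow_le_pow_left h3 10
      _ = 2 ^ 10 * (max x y) ^ 10 := by ring
      _ ≤ 2 ^ 10 * (4 ^ 10 * n ^ 28) := Nat.mul_le_mul_left _ hm
      _ = 8 ^ 10 * n ^ 28 := by ring
      _ ≤ n * n ^ 28 := Nat.mul_le_mul_right _ hn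
      _ = n ^ 29 := by ring

end Pool.Agent.Helper47.FS
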