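import Pool.Agent.Helper91.FS.Goals

/-!
# Project FS (MP_0130f7_co), packet M2T: the middle-out condition between the levels 2 and 3
-/

set_option autoImplicit false

namespace Pool.Agent.Helper47.FS

open Finset
open Pool.Agent.Helper47.SR (Grp mv lev wt Ew W IsInv up dn StarAt HalfStarAt Goal_KKA Goal_KKB)
open Pool.Agent.Helper49.NF
open Pool.Agent.Helper91.FS

theorem W_eq {n : ℕ} (G : Grp n) (F : Finset (Finset (Fin n))) : W G F = #F + Ew G F := by
  unfold W Ew
  rw [sum_add_distrib, sum_const, smul_eq_mul, mul_one]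

/-- double counting of the pairs -/
theorem pair_sum {n : ℕ} (g : Finset (Fin n) → ℕ) :
    ∑ v, ∑ u ∈ univ.erase v, g {u, v} = 2 * ∑ y ∈ lev n 2, g y := by
  classical
  have h1 : ∀ v : Fin n, ∑ u ∈ univ.erase v, g {u, v} = ∑ y ∈ (lev n 2).filter (fun y => v ∈ y), g y := by
    intro v
    refine sum_bij (fun u _ => {u, v}) ?_ ?_ ?_ (fun _ _ => rfl)
    · intro u hu
      rw [mem_filter, mem_powersetCard]
      exact ⟨⟨subset_univ _, card_pair (ne_of_mem_erase hu)⟩, by simp⟩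
    · intro u hu u' hu' h
      have : u ∈ ({u', v} : Finset (Fin n)) := by
        rw [← h]; simp
      rw [mem_insert, mem_singleton] at this
      rcases this with h | h
      · exact h
      · exact absurd h (ne_of_mem_erase hu)
    · intro y hy
      rw [mem_filter, mem_powersetCard] at hy
      obtain ⟨⟨_, hc⟩, hv⟩ := hy
      obtain ⟨a, b, hab, rfl⟩ := card_eq_two.1 hc
      rw [mem_insert, mem_singleton] at hv
      rcases hv with rfl | rfl
      · exact ⟨b, mem_erase.2 ⟨hab.symm, mem_univ _⟩, pair_comm _ _⟩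
      · exact ⟨a, mem_erase.2 ⟨hab, mem_univ _⟩, rfl⟩
  rw [sum_congr rfl fun v _ => h1 v]
  simp only [sum_filter]
  rw [sum_comm, mul_sum]
  apply sum_congr rfl
  intro y hy
  rw [← sum_filter, sum_const, smul_eq_mul]
  congr 1
  rw [← (mem_powersetCard.1 hy).2]
  congr 1
  ext x
  simp

theorem numT (a n L X Z : ℕ) (ha : 1 ≤ a) (hn : a ^ 11 ≤ n) (hL : L ^ 2000 ≤ n)
    (hX : X ^ 10 * n ≤ Z ^ 10) : a * (L ^ 5 * X) ≤ Z := by
  have h1 : a ^ 10 * L ^ 50 ≤ n := by
    have h2 : (a ^ 10 * L ^ 50) ^ 40 ≤ n ^ 40 := by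
      calc (a ^ 10 * L ^ 50) ^ 40 = a ^ 400 * L ^ 2000 := by
            rw [mul_pow, ← pow_mul, ← pow_mul]
        _ ≤ a ^ 429 * n := Nat.mul_le_mul (Nat.pow_le_pow_right ha (by norm_num)) hL
        _ = (a ^ 11) ^ 39 * n := by rw [← pow_mul]
        _ ≤ n ^ 39 * n := Nat.mul_le_mul_right _ (Nat.pow_le_pow_left hn 39)
        _ = n ^ 40 := by rw [← pow_succ]
    exact (Nat.pow_le_pow_iff_left (by norm_num)).1 h2
  have h3 : (a * (L ^ 5 * X)) ^ 10 ≤ Z ^ 10 := by
    calc (a * (L ^ 5 * X)) ^ 10 = (a ^ 10 * L ^ 50) * X ^ 10 := by ring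
      _ ≤ n * X ^ 10 := Nat.mul_le_mul_right _ h1
      _ = X ^ 10 * n := by ring
      _ ≤ Z ^ 10 := hX
  exact (Nat.pow_le_pow_iff_left (by norm_num)).1 h3

theorem num1 (n d lam D WS WY VS VY US v E3 y B : ℝ) (hn : 100 ≤ n) (hd0 : 0 ≤ d) (hd : d ≤ n - 1)
    (hlam : lam = (n - 1) * (n - 2)) (hD : D = n - 1 + d) (hB : 0 ≤ B) (hE : 0 ≤ E3)
    (hy : 1600 * (B * n) + 9600 * E3 ≤ n * y)
    (ha : lam * VS ≤ 3 * D * US)
    (hb : 1600 * (3 * D * v) + n ^ 2 * y ≤ 1600 * (lam * VY))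
    (hS : WS ≤ VS + B) (hY : VY ≤ WY) (hlt : WY ≤ WS) :
    v + E3 + WS ≤ US + WY := by
  have hD0 : 0 < D := by linarith
  have hD2 : 3 * D ≤ 6 * n := by linarith
  have hl0 : 0 ≤ lam := by rw [hlam]; exact mul_nonneg (by linarith) (by linarith)
  have hlD : 3 * D ≤ lam := by rw [hlam]; nlinarith
  have hln : lam ≤ n ^ 2 := by rw [hlam]; nlinarith
  have s1 : lam * (WS - B) ≤ 3 * D * US :=
    (mul_le_mul_of_nonneg_left (by linarith) hl0).trans ha
  have s2 : lam * VY ≤ lam * WY := mul_le_mul_of_nonneg_left hY hl0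
  have s4 : 0 ≤ (lam - 3 * D) * (WS - WY) := mul_nonneg (by linarith) (by linarith)
  have s5 : n * (1600 * (B * n) + 9600 * E3) ≤ n * (n * y) :=
    mul_le_mul_of_nonneg_left hy (by linarith)
  have s6 : lam * B ≤ n ^ 2 * B := mul_le_mul_of_nonneg_right hln hB
  have s7 : 3 * D * E3 ≤ 6 * n * E3 := mul_le_mul_of_nonneg_right hD2 hE
  have : 3 * D * (v + E3 + WS) ≤ 3 * D * (US + WY) := by nlinarith
  exact le_of_mul_le_mul_left this (by linarith)

theorem goal_M2T (hSTB : Goal_STBB) (hDEG : Goal_DEG2) (hM2A : Goal_M2A)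
    (hM2S : Goal_M2S) (hCLS : Goal_CLS) : Goal_M2T := by
  classical
  obtain ⟨n₁, hM2S⟩ := hM2S
  obtain ⟨a, ha⟩ : ∃ a : ℕ, a = 2 ^ 31 := ⟨_, rfl⟩
  refine ⟨n₁ + a ^ 11, fun n hn L f G hN hH hL hb hE => ?_⟩
  intro S Y hS hY hSi hYi hhalf hlt
  have hn0 : n₁ ≤ n := le_trans (Nat.le_add_right _ _) hn
  have hna : a ^ 11 ≤ n := le_trans (Nat.le_add_left _ _) hn
  have ha1 : 1 ≤ a := by omega
  clear hn
  have hL1 := hN.L1
  have hn1 : 1 ≤ n := le_trans (Nat.one_le_pow _ _ ha1) hna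
  set β := bad2 G with hβ
  set E3 := Ew G (lev n 3) with hE3
  have nb : a * (L ^ 5 * β) ≤ n ^ 2 := by
    refine numT a n L β (n ^ 2) ha1 hna hL ?_
    calc β ^ 10 * n ≤ n ^ 19 * n := Nat.mul_le_mul_right _ hb
      _ = (n ^ 2) ^ 10 := by ring
  have ne : a * (L ^ 5 * E3) ≤ n ^ 3 := by
    refine numT a n L E3 (n ^ 3) ha1 hna hL ?_
    calc E3 ^ 10 * n ≤ n ^ 29 * n := Nat.mul_le_mul_right _ hE
      _ = (n ^ 3) ^ 10 := by ring
  have nL : a * (L ^ 5 * 1) ≤ n := by
    refine numT a n L 1 n ha1 hna hL ?_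
    calc 1 ^ 10 * n = n ^ 1 := by ring
      _ ≤ n ^ 10 := Nat.pow_le_pow_right hn1 (by norm_num)
  clear hb hE hna hL
  rw [ha] at nb ne nL
  have hL5 : L ≤ L ^ 5 := by
    calc L = L ^ 1 := (pow_one L).symm
      _ ≤ L ^ 5 := Nat.pow_le_pow_right hL1 (by norm_num)
  have hL2 : L ^ 2 ≤ L ^ 5 := Nat.pow_le_pow_right hL1 (by norm_num)
  have hL4 : L ^ 4 ≤ L ^ 5 := Nat.pow_le_pow_right hL1 (by norm_num)
  have hn3 : 1000 ≤ n := by omega
  have hfam : Fam G 2 S Y := ⟨hS, hY, hSi, hYi, hlt⟩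
  obtain ⟨-, -, b3⟩ := hSTB 2 n L f G hN
  have hlev : #(lev n 2) = n.choose 2 := by
    rw [card_powersetCard, card_univ, Fintype.card_fin]
  have hSle : #S ≤ n.choose 2 := by
    rw [← hlev]; exact card_le_card hS
  rcases Nat.lt_or_ge (n * #Y) (6400 * (L * β * n) + 9600 * E3) with hYs | hYb
  · -- case 2
    have e3' : ∀ i : ℕ, 2 + i - 1 = i + 1 := fun i => by omega
    set i := n / (200 * L ^ 2) with hi
    have hK2 : 0 < 200 * L ^ 2 := by positivity
    have hz1 : 200 * L ^ 2 * i ≤ n := Nat.mul_div_le _ _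
    have hz2 : n < 200 * L ^ 2 * (i + 1) := by
      rw [hi]; exact Nat.lt_mul_div_succ n hK2
    have hNn : ∀ j, 2 ≤ j → j ≤ 3 → Nn G j (9 * L + 1) = 0 := by
      intro j hj1 hj3
      unfold Nn
      apply sum_eq_zero
      intro A hA
      exfalso
      rw [mem_filter, mem_powersetCard] at hA
      have h1 := b3 A (by omega)
      have h2 : L * #A ^ 2 ≤ L * 3 ^ 2 :=
        Nat.mul_le_mul_left _ (Nat.pow_le_pow_left (by omega) 2)
      omega
    have hY' : #Y ≤ (2 + i).choose 2 := by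
      have e2 : 2 * (2 + i).choose 2 = (2 + i) * (2 + i - 1) := by
        rw [Nat.choose_two_right, Nat.mul_div_cancel']
        exact (Nat.even_mul_pred_self (2 + i)).two_dvd
      have e3 : 2 + i - 1 = i + 1 := e3' i
      rw [e3] at e2
      have e4 : (i + 1) * (i + 1) ≤ 2 * (2 + i).choose 2 := by
        rw [e2]
        exact Nat.mul_le_mul_right _ (by omega)
      by_contra hcon
      rw [not_le] at hcon
      have h1 : n * n < (200 * L ^ 2 * (i + 1)) * (200 * L ^ 2 * (i + 1)) :=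
        Nat.mul_lt_mul'' hz2 hz2
      have h2 : (200 * L ^ 2 * (i + 1)) * (200 * L ^ 2 * (i + 1)) ≤ 80000 * L ^ 4 * #Y := by
        calc (200 * L ^ 2 * (i + 1)) * (200 * L ^ 2 * (i + 1)) =
              40000 * L ^ 4 * ((i + 1) * (i + 1)) := by ring
          _ ≤ 40000 * L ^ 4 * (2 * #Y) := Nat.mul_le_mul_left _ (by omega)
          _ = 80000 * L ^ 4 * #Y := by ring
      have h3 : n * (n * n) < 80000 * L ^ 4 * (6400 * (L * β * n) + 9600 * E3) := by
        calc n * (n * n) < n * (80000 * L ^ 4 * #Y) :=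
              Nat.mul_lt_mul_of_pos_left (lt_of_lt_of_le h1 h2) (by omega)
          _ = 80000 * L ^ 4 * (n * #Y) := by ring
          _ ≤ 80000 * L ^ 4 * (6400 * (L * β * n) + 9600 * E3) :=
              Nat.mul_le_mul_left _ hYs.le
      have h4 : 80000 * L ^ 4 * (6400 * (L * β * n)) = 512000000 * (n * (L ^ 5 * β)) := by ring
      have h5 : 80000 * L ^ 4 * (9600 * E3) ≤ 768000000 * (L ^ 5 * E3) := by
        calc 80000 * L ^ 4 * (9600 * E3) = 768000000 * (L ^ 4 * E3) := by ring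
          _ ≤ 768000000 * (L ^ 5 * E3) :=
              Nat.mul_le_mul_left _ (Nat.mul_le_mul_right _ hL4)
      have h6 : 2 ^ 31 * (n * (L ^ 5 * β)) ≤ n * (n * n) := by
        calc 2 ^ 31 * (n * (L ^ 5 * β)) = n * (2 ^ 31 * (L ^ 5 * β)) := by ring
          _ ≤ n * n ^ 2 := Nat.mul_le_mul_left _ nb
          _ = n * (n * n) := by ring
      have h7 : 2 ^ 31 * (L ^ 5 * E3) ≤ n * (n * n) := by
        refine ne.trans (le_of_eq ?_)
        ring
      rw [mul_add] at h3
      generalize n * (n * n) = T at *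
      generalize n * (L ^ 5 * β) = T1 at *
      generalize L ^ 5 * E3 = T2 at *
      generalize 80000 * L ^ 4 * (6400 * (L * β * n)) = T3 at *
      generalize 80000 * L ^ 4 * (9600 * E3) = T4 at *
      omega
    have hcl := hCLS n 2 (9 * L) i 2 G S Y (by norm_num) (by omega) (by omega) hfam
      (by
        have e1 : n - 2 + 2 = n := by omega
        rw [e1, Nat.choose_symm (by omega)]
        exact hSle)
      hY' (by rw [hNn 2 (by norm_num) (by norm_num)]; omega)
      (by rw [hNn 3 (by norm_num) (by norm_num)]; omega)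
      (by
        have h2 : 64 * (9 * L * (2 + 1) * (9 * L * i)) = 15552 * (L ^ 2 * i) := by ring
        have h3 : 200 * (L ^ 2 * i) ≤ n := by rw [← mul_assoc]; exact hz1
        rw [h2]
        have h4 : 9 * L * (2 + 1) * (2 + 1) = 81 * L := by ring
        rw [h4]
        omega)
      (by
        have h4 : 9 * L * (2 + 1) * (2 + 1) = 81 * L := by ring
        rw [h4]
        omega)
    exact hcl
  · -- case 1
    obtain ⟨w, d, w1, w2, w3, w4⟩ := hDEG n L f G hN hH
    have hsum : ∀ v : Fin n, ∑ u ∈ univ.erase v, w {u, v} ≤ n - 1 := by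
      intro v
      refine (sum_le_sum fun u _ => w1 {u, v}).trans ?_
      rw [sum_const, smul_eq_mul, mul_one, card_erase_of_mem (mem_univ v), card_univ,
        Fintype.card_fin]
    have hdn : d ≤ n - 1 := by
      have h1 := hsum ⟨0, by omega⟩
      rwa [w3] at h1
    have w3' : ∀ v, ∑ u ∈ univ.erase v, w {u, v} ≤ d ∧
        d ≤ ∑ u ∈ univ.erase v, w {u, v} + 0 := by
      intro v
      exact ⟨(w3 v).le, (w3 v).ge⟩
    have hwd : 2 * ∑ y ∈ lev n 2, w y = n * d := by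
      rw [← pair_sum]
      calc ∑ v, ∑ u ∈ univ.erase v, w {u, v} = ∑ v : Fin n, d :=
            sum_congr rfl fun v _ => w3 v
        _ = _ := by rw [sum_const, card_univ, Fintype.card_fin, smul_eq_mul]
    have hWlow : ∀ F ⊆ lev n 2, #F + ∑ y ∈ F, w y ≤ W G F := by
      intro F hF
      rw [W_eq]
      exact Nat.add_le_add_left (sum_le_sum fun y hy => w2 y (hF hy)) _
    have hWup : ∀ F ⊆ lev n 2, W G F ≤ #F + ∑ y ∈ F, w y + 4 * L * β := by
      intro F hF
      rw [W_eq]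
      have h1 := w4 F hF
      rw [← hβ] at h1
      omega
    have hch : 2 * n.choose 2 = n * (n - 1) := by
      rw [Nat.choose_two_right, Nat.mul_div_cancel']
      exact (Nat.even_mul_pred_self n).two_dvd
    have hLβ : L * β ≤ L ^ 5 * β := Nat.mul_le_mul_right _ hL5
    have hYh : 4 * (#Y + ∑ y ∈ Y, w y) ≤ n * (n - 1 + d) + n ^ 2 / 100 := by
      have h1 := hWlow Y hY
      have h2 := hWup (lev n 2) (Subset.refl _)
      rw [hlev] at h2
      have h3 : n * (n - 1 + d) = n * (n - 1) + n * d := by ring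
      have h4 : 8 * (L * β) ≤ n ^ 2 / 100 := by
        rw [Nat.le_div_iff_mul_le (by norm_num)]
        omega
      have h5 : 4 * L * β = 4 * (L * β) := by ring
      omega
    have hS2 := hM2S n hn0 d 0 w (by omega) w1 w3' (by omega) Y hY hYh
    have hA := (hM2A n d 0 w (by omega) w1 w3' S hS).1
    have hE3' : Ew G (dn 2 Y) ≤ E3 := by
      rw [hE3]
      unfold Ew
      exact sum_le_sum_of_subset (filter_subset _ _)
    have hWS := hWup S hS
    have hWY := hWlow Y hY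
    have c1 : ((n - 1 : ℕ) : ℝ) = (n : ℝ) - 1 := by
      rw [Nat.cast_sub (by omega)]; simp
    have c2 : ((n - 2 : ℕ) : ℝ) = (n : ℝ) - 2 := by
      rw [Nat.cast_sub (by omega)]; simp
    rw [zero_mul, zero_mul, add_zero] at hS2
    have hYb' : 1600 * (4 * L * β * n) + 9600 * E3 ≤ n * #Y := by
      refine le_trans (le_of_eq ?_) hYb
      ring
    have main := num1 (n : ℝ) (d : ℝ) (((n - 1) * (n - 2) : ℕ) : ℝ) ((n - 1 + d : ℕ) : ℝ)
      (W G S : ℝ) (W G Y : ℝ) ((#S + ∑ y ∈ S, w y : ℕ) : ℝ) ((#Y + ∑ y ∈ Y, w y : ℕ) : ℝ)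
      (#(up 2 S) : ℝ) (#(dn 2 Y) : ℝ) (E3 : ℝ) (#Y : ℝ) ((4 * L * β : ℕ) : ℝ)
      (by exact_mod_cast (by omega : 100 ≤ n)) (by positivity)
      (by rw [← c1]; exact_mod_cast hdn)
      (by rw [Nat.cast_mul, c1, c2]) (by rw [Nat.cast_add, c1]) (by positivity) (by positivity)
      (by exact_mod_cast hYb')
      (by exact_mod_cast hA)
      (by exact_mod_cast hS2)
      (by exact_mod_cast hWS)
      (by exact_mod_cast hWY)
      (by exact_mod_cast hlt.le)
    have main' : #(dn 2 Y) + E3 + W G S ≤ #(up 2 S) + W G Y := by exact_mod_cast main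
    have hWu := W_eq G (up 2 S)
    have hWd := W_eq G (dn 2 Y)
    omega

end Pool.Agent.Helper47.FS
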